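import Pool.Agent.R640.HMon4

/-!
# A Bonk-Kleiner-type dichotomy for inverse monoids fails (MP_8b7a64_al, Q1, positive answer)

Let `M` be the inverse monoid generated by `a, t, s, b` and a zero `z` with the relations
`a a⁻¹ = a⁻¹ a = 1`, `s = a⁻¹ t`, `t a = a a t`, `b = b b⁻¹ t`, `b b⁻¹ = b b b⁻¹ b⁻¹` and
`t t⁻¹ a t = z`. In a Schützenberger graph other than that of the zero the `a`-edges form lines,
every second vertex of a line has an edge `t` and the others have an edge `s` to the line above it,
or the line is the highest one. So the graph is a horoball over a line which is possibly truncated
at some height, and it is not truncated if there is an edge `b`. These graphs are uniformly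
hyperbolic. A horoball is not quasi-isometric to a tree since two far apart points of the lowest
line are joined by two paths which are far from each other away from the end points; it contains no
quasi-isometric image of the hyperbolic plane since it contains no bi-infinite quasi-geodesic,
and the truncated ones contain none since they have linear growth.
-/

set_option autoImplicit false

namespace Pool.Agent.Results.MP_8b7a64_al.HoroballMonoid

open Pool.Agent.R640.IM Pool.Agent.R640.Horo

/-- There is a finitely presented inverse monoid whose Schützenberger graphs are hyperbolic with
one constant `δ` and contain no quasi-isometric image of the hyperbolic plane, and which is not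
tree-like. -/
theorem result : ∃ (A : Type) (_ : Finite A) (R : Set (List (A × Bool) × List (A × Bool))),
    R.Finite ∧ (∃ δ : ℝ, ∀ w, FourPt (schutz R w) δ) ∧ ¬ TreeLike R ∧
      ∀ w, ¬ ContainsH2 (schutz R w) :=
  ⟨HM.Gn, inferInstance, HM.RR, HM.RR_finite, ⟨9, HM.four⟩, HM.not_treeLike, HM.noH2⟩

end Pool.Agent.Results.MP_8b7a64_al.HoroballMonoid
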